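import Mathlib
import Pool.Agent.H2.IndepDefs
import Pool.Agent.H2.IndepMain

open Pool.Agent.H2.Indep Filter Topology in
theorem Pool.Agent.Results.MP_364e44_co.NoLimit.result :
    ¬ ∃ L : ℝ, Tendsto (fun n : ℕ => (tau n 5 : ℝ) / √(n : ℝ)) atTop (𝓝 L) :=
  main
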